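/-
ROW RL_Ind (about 110 lines). Independence of disjoint sets of edges, in the setting `RSub` of H9/KR/Defs.
mob. Every function `f` of finite sets is `f S = ∑_{B ⊆ S} a B`. (Strong recursion/induction: for every `n` there is `a` that works for all `S` with at most `n` elements and agrees ...; or the explicit `a B = ∑_{C ⊆ B} (-1)^(#B - #C) f C` (Mathlib: `Finset.sum_powerset_neg_one_pow_card_of_nonempty`, interval sums), or define `a` by well-founded recursion on `#B`: `a B = f B - ∑_{C ⊂ B} a C` and use `Finset.powerset = insert B ssubsets`.)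
indep. With `a i` for `f i`: `f i (R o ∩ A i) = ∑_{B ∈ (A i).powerset} a i B * (if B ⊆ R o then 1 else 0)` (`B ⊆ R o ∩ A i ↔ B ⊆ R o ∧ B ⊆ A i`). `Finset.prod_sum` (or `Finset.induction_on I` with a more general statement: for `E1` disjoint from all `A i`, `E1 ⊆ E₀`: `∑_o w o [E1 ⊆ R o] ∏_{i ∈ I} f i (R o ∩ A i) = p^#E1 ∏_{i ∈ I} ∑_{B ∈ (A i).powerset} a i B p^#B`; the induction step moves `B` into `E1`: `[E1 ⊆ R][B ⊆ R] = [E1 ∪ B ⊆ R]`, `#(E1 ∪ B) = #E1 + #B`; the base case is `RSub.hit`).
 Then `indep` is this for `E1 = ∅`, once for `I` and once for every `{i}`.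
-/
import Pool.Agent.H9.KR.Defs

set_option autoImplicit false
set_option linter.unusedSectionVars false

open Finset

namespace Pool.Agent.H11.RL

open Pool.Agent.H9.KR

variable {Ω E : Type} [Fintype Ω] [DecidableEq E]

theorem mob (f : Finset E → ℝ) : ∃ a : Finset E → ℝ, ∀ S, f S = ∑ B ∈ S.powerset, a B := by
  classical
  let a : Finset E → ℝ := Finset.strongInduction (p := fun _ => ℝ)
    (fun B ih => f B - ∑ C ∈ B.ssubsets.attach, ih C.1 (Finset.mem_ssubsets.1 C.2))
  refine ⟨a, fun S => ?_⟩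
  have h1 : a S = f S - ∑ C ∈ S.ssubsets, a C := by
    have h2 : a S = f S - ∑ C ∈ S.ssubsets.attach, a C.1 := by
      show Finset.strongInduction (p := fun _ => ℝ) _ S = _
      rw [Finset.strongInduction_eq]
    rw [h2, Finset.sum_attach S.ssubsets a]
  have h3 : ∑ B ∈ S.powerset, a B = a S + ∑ C ∈ S.ssubsets, a C := by
    have h4 : S.ssubsets = S.powerset.erase S := rfl
    rw [h4, Finset.add_sum_erase _ _ (Finset.mem_powerset_self S)]
  rw [h3, h1]
  ring

lemma Ind_gen {w : Ω → ℝ} {R : Ω → Finset E} {E₀ : Finset E} {p : ℝ} (h : RSub w R E₀ p)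
    {ι : Type} [DecidableEq ι] (A : ι → Finset E) (f a : ι → Finset E → ℝ)
    (ha : ∀ i S, f i S = ∑ B ∈ S.powerset, a i B) (I : Finset ι) (hA : ∀ i ∈ I, A i ⊆ E₀)
    (hdis : ∀ i ∈ I, ∀ j ∈ I, i ≠ j → Disjoint (A i) (A j)) :
    ∀ E1 : Finset E, E1 ⊆ E₀ → (∀ i ∈ I, Disjoint E1 (A i)) →
      ∑ o, w o * ((if E1 ⊆ R o then (1 : ℝ) else 0) * ∏ i ∈ I, f i (R o ∩ A i)) =
        p ^ E1.card * ∏ i ∈ I, ∑ B ∈ (A i).powerset, a i B * p ^ B.card := by
  classical
  induction I using Finset.induction_on with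
  | empty =>
    intro E1 hE1 _
    have h1 := h.hit E1 hE1
    simp only [Finset.prod_empty, mul_one]
    rw [← h1]
    unfold pr
    refine Finset.sum_congr rfl fun o _ => ?_
    by_cases h2 : E1 ⊆ R o <;> simp [h2]
  | insert i I hi ih =>
    intro E1 hE1 hd
    have ih' := ih (fun j hj => hA j (Finset.mem_insert_of_mem hj))
      (fun j hj k hk => hdis j (Finset.mem_insert_of_mem hj) k (Finset.mem_insert_of_mem hk))
    have key : ∀ o, f i (R o ∩ A i) =
        ∑ B ∈ (A i).powerset, a i B * (if B ⊆ R o then (1 : ℝ) else 0) := by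
      intro o
      rw [ha i]
      have h5 : (R o ∩ A i).powerset = (A i).powerset.filter (fun B => B ⊆ R o) := by
        ext B
        simp only [Finset.mem_powerset, Finset.mem_filter, Finset.subset_inter_iff]
        tauto
      rw [h5, Finset.sum_filter]
      refine Finset.sum_congr rfl fun B _ => ?_
      by_cases h6 : B ⊆ R o <;> simp [h6]
    have hstep : ∀ B ∈ (A i).powerset,
        ∑ o, w o * ((if E1 ∪ B ⊆ R o then (1 : ℝ) else 0) * ∏ j ∈ I, f j (R o ∩ A j)) =
          p ^ E1.card * p ^ B.card * ∏ j ∈ I, ∑ B ∈ (A j).powerset, a j B * p ^ B.card := by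
      intro B hB
      rw [Finset.mem_powerset] at hB
      have hAi : A i ⊆ E₀ := hA i (Finset.mem_insert_self i I)
      have hd1 : Disjoint E1 B := Finset.disjoint_of_subset_right hB (hd i (Finset.mem_insert_self i I))
      rw [ih' (E1 ∪ B) (Finset.union_subset hE1 (hB.trans hAi)) ?_, Finset.card_union_of_disjoint hd1,
        pow_add]
      intro j hj
      rw [Finset.disjoint_union_left]
      refine ⟨hd j (Finset.mem_insert_of_mem hj), Finset.disjoint_of_subset_left hB ?_⟩
      refine hdis i (Finset.mem_insert_self i I) j (Finset.mem_insert_of_mem hj) ?_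
      rintro rfl
      exact hi hj
    have hL : ∑ o, w o * ((if E1 ⊆ R o then (1 : ℝ) else 0) * ∏ j ∈ insert i I, f j (R o ∩ A j)) =
        ∑ B ∈ (A i).powerset, a i B *
          ∑ o, w o * ((if E1 ∪ B ⊆ R o then (1 : ℝ) else 0) * ∏ j ∈ I, f j (R o ∩ A j)) := by
      simp only [Finset.mul_sum]
      rw [Finset.sum_comm]
      refine Finset.sum_congr rfl fun o _ => ?_
      rw [Finset.prod_insert hi, key o, Finset.sum_mul, Finset.mul_sum, Finset.mul_sum]
      refine Finset.sum_congr rfl fun B _ => ?_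
      by_cases h7 : E1 ⊆ R o <;> by_cases h8 : B ⊆ R o <;>
        (simp [h7, h8, Finset.union_subset_iff]; try ring)
    rw [hL, Finset.prod_insert hi, Finset.sum_congr rfl (fun B hB => by rw [hstep B hB])]
    rw [Finset.sum_mul, Finset.mul_sum]
    refine Finset.sum_congr rfl fun B _ => ?_
    ring

theorem indep {w : Ω → ℝ} {R : Ω → Finset E} {E₀ : Finset E} {p : ℝ} (h : RSub w R E₀ p)
    {ι : Type} [DecidableEq ι] (I : Finset ι) (A : ι → Finset E) (hA : ∀ i ∈ I, A i ⊆ E₀)
    (hdis : ∀ i ∈ I, ∀ j ∈ I, i ≠ j → Disjoint (A i) (A j)) (f : ι → Finset E → ℝ) :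
    ∑ o, w o * ∏ i ∈ I, f i (R o ∩ A i) = ∏ i ∈ I, ∑ o, w o * f i (R o ∩ A i) := by
  classical
  choose a ha using fun i => mob (f i)
  have h1 := Ind_gen h A f a ha I hA hdis ∅ (Finset.empty_subset _) (fun i _ => Finset.disjoint_empty_left _)
  simp only [Finset.empty_subset, if_true, one_mul, Finset.card_empty, pow_zero] at h1
  rw [h1]
  refine Finset.prod_congr rfl fun i hi => ?_
  have h2 := Ind_gen h A f a ha {i} (by
      intro j hj
      rw [Finset.mem_singleton] at hj
      rw [hj]
      exact hA i hi)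
    (by
      intro j hj k hk hjk
      rw [Finset.mem_singleton] at hj hk
      exact absurd (hj.trans hk.symm) hjk) ∅ (Finset.empty_subset _)
    (fun j _ => Finset.disjoint_empty_left _)
  simp only [Finset.empty_subset, if_true, one_mul, Finset.card_empty, pow_zero,
    Finset.prod_singleton] at h2
  exact h2.symm

end Pool.Agent.H11.RL
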