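/-
ROW RL_Hv (about 200 lines). Lemma H (section 6): few heavy sets. Uses heavy_fam, extremal, enum_tup, den_all_le as stated.
heavy_class. `ρ = rho c L #U' B1 ≥ 1`. If the claim fails for `Q`, extremal (with `M`) gives `Q'`, `#Q' < g`, `M' = M.filter (Q' ⊆ ·)` nonempty, and the value of `Q'` is the largest. For `γ ∈ M'` the set `X γ` is nonempty (Heavy: its density is > thr ≥ 0), so `Ad P.G U' β γ`. enum_tup (cell `U', β, Φ`, set `Q'`, family `M'`: filter of a filter) gives `y` with `Fam P U' β (Φ ∪ Q') M' y ρ`, `Q' ∪ image (y γ) = γ`.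
 heavy_fam with `Q'`, `g - #Q' ≥ 1`, `O = M'`, `X`, `D` (rewrite `Q' ∪ image (y γ) = γ`): contradiction. (`Q' ⊆ γ ⊆ Out`, disjoint from `Φ`.)
heavy_card. If `#Q > g` the filter is empty; if `#Q = g` it has at most one element (`γ = Q`) and the claim is `ρ'^g ≤ ρ'^g`. Let `#Q < g`. Choose `X γ` for every `γ ∈ HS`. `θ = thr G0 d u g u'`, `θ ≥ d > 0` (`d > 0` by Sp.dens, Tot > 0). `θ < d_γ = den (X γ) U' β (Φ ∪ γ) ≤ 8^L Tot ≤ 8^L Z1 d ≤ h^cm θ` (den_mono, den_all_le, Fcm).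
 So there is `i ≤ cm` with `θ h^i ≤ d_γ ≤ θ h^(i+1)` (the largest `i ≤ cm` with `θ h^i ≤ d_γ`; for `i = cm` use `d_γ ≤ θ h^cm ≤ θ h^(cm+1)`). For each `i` heavy_class for the members of `HS` with this `i`, `D = θ h^i`: `#{..} ρ1^#Q ≤ ρ1^g`, so `#{..} ≤ ρ1^(g - #Q)`. Sum over `i ∈ range (cm+1)`: `#(HS.filter (Q ⊆ ·)) ≤ (cm+1) ρ1^(g - #Q) ≤ ((cm+1) ρ1)^(g - #Q) ≤ ρ'^(g - #Q)` (FBp: `(cm+1) B1 ≤ Bp`).
-/
import Pool.Agent.H11.RL.Hvf
import Pool.Agent.H11.RL.Fml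

set_option autoImplicit false
set_option linter.unusedSectionVars false

open Finset

namespace Pool.Agent.H49.RL

open Pool.Agent.H49.RG (Cl Ad Eqn nbr cell pts mem_cell mem_nbr mem_pts cell_sub cell_mono
  cell_anti cell_cell cell_eq)
open Pool.Agent.H82.RL (HH ZZ Vio MVio NoVio Fam natT MVio_congr mem_natT)

variable {ν ω : Type} [Fintype ν] [DecidableEq ν] [DecidableEq ω] {L g : ℕ}

theorem Hv_rho_ge {c : Num} {R : ℕ} (hc : c.OK R L) (u : ℕ) : 1 ≤ rho c L u c.B1 := by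
  unfold rho
  have h1 : (1 : ℝ) ≤ 1 / c.p := by
    rw [le_div_iff₀ hc.p_pos, one_mul]
    exact hc.p_le
  have h2 : (1 : ℝ) ≤ (1 / c.p) ^ (L - u) := one_le_pow₀ h1
  exact one_le_mul_of_one_le_of_one_le h2 hc.B1_ge

theorem Hv_thr_ge {c : Num} {R : ℕ} (hc : c.OK R L) {G0 d : ℝ} (hG0 : 1 ≤ G0)
    (hd : 0 ≤ d) (u g m : ℕ) : d ≤ c.thr G0 d u g m := by
  unfold Num.thr
  have h1 : (1 : ℝ) ≤ 8 ^ g := one_le_pow₀ (by norm_num)
  have h2 : (1 : ℝ) ≤ c.h ^ (m - u) := one_le_pow₀ hc.h_ge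
  have h3 : (1 : ℝ) ≤ G0 * 8 ^ g * c.h ^ (m - u) :=
    one_le_mul_of_one_le_of_one_le (one_le_mul_of_one_le_of_one_le hG0 h1) h2
  exact le_mul_of_one_le_left hd h3

theorem Hv_nonempty {P : Pl ν L} {c : Num} {R : ℕ} (hc : c.OK R L) {G0 d : ℝ} (hG0 : 1 ≤ G0)
    (hd : 0 ≤ d) {u : ℕ} {Φ : Finset ν} {T : Finset ν → Finset (Fin L → ν)} {γ : Finset ν}
    {U' : Finset (Fin L)} {β : Fin L → ν} {X : Finset (Fin L → ν)}
    (hX : P.Heavy c G0 d u Φ T γ U' β X) : X.Nonempty := by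
  by_contra hne
  rw [not_nonempty_iff_eq_empty] at hne
  have h1 := hX.2.2.1
  have h2 := Hv_thr_ge hc hG0 hd u γ.card U'.card
  rw [P.den_of_sub c hX.1, hne, card_empty, Nat.cast_zero, zero_mul] at h1
  linarith

theorem Hv_cls (θ h d : ℝ) (hh : 1 ≤ h) (hθ : 0 ≤ θ) (h1 : θ ≤ d) (m : ℕ) (h2 : d ≤ h ^ m * θ) :
    ∃ i, i ≤ m ∧ θ * h ^ i ≤ d ∧ d ≤ h * (θ * h ^ i) := by
  induction m with
  | zero =>
    refine ⟨0, le_rfl, ?_, ?_⟩
    · rw [pow_zero, mul_one]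
      exact h1
    · rw [pow_zero, one_mul] at h2
      rw [pow_zero, mul_one]
      exact h2.trans (le_mul_of_one_le_left hθ hh)
  | succ m ih =>
    by_cases h3 : d ≤ h ^ m * θ
    · obtain ⟨i, hi, h4, h5⟩ := ih h3
      exact ⟨i, by omega, h4, h5⟩
    · push Not at h3
      refine ⟨m, by omega, ?_, ?_⟩
      · rw [mul_comm]
        exact h3.le
      · calc d ≤ h ^ (m + 1) * θ := h2
          _ = h * (θ * h ^ m) := by ring

theorem heavy_class {P : Pl ν L} {c : Num} {R : ℕ} (h : P.OK c) (hc : c.OK R L)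
    {A : Finset (Fin L → ν)} {U : Finset (Fin L)} {α : Fin L → ν} {Φ : Finset ν} {G0 : ℝ}
    (hA : P.Sp c A U α Φ c.Z1 G0) (hG0 : 1 ≤ G0) {T : Finset ν → Finset (Fin L → ν)}
    (hT : P.Tow c G0 A U α Φ T) {U' : Finset (Fin L)} (hU : U ⊆ U') (hUU' : U ≠ U')
    (β : Fin L → ν) (hΦc : Φ.card + c.w ≤ 3 * L) (hgw : g ≤ c.w) (M : Finset (Finset ν))
    (hM : ∀ γ ∈ M, γ.card = g ∧ γ ⊆ P.Out ∧ Disjoint γ Φ) (X : Finset ν → Finset (Fin L → ν))
    (hX : ∀ γ ∈ M, P.Heavy c G0 (P.den c A U α Φ) U.card Φ T γ U' β (X γ))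
    (D : ℝ) (hD1 : ∀ γ ∈ M, D ≤ P.den c (X γ) U' β (Φ ∪ γ))
    (hD2 : ∀ γ ∈ M, P.den c (X γ) U' β (Φ ∪ γ) ≤ c.h * D) (Q : Finset ν) :
    ((M.filter (fun γ => Q ⊆ γ)).card : ℝ) * rho c L U'.card c.B1 ^ Q.card ≤
      rho c L U'.card c.B1 ^ g := by
  have hρ := Hv_rho_ge hc U'.card
  have hd := P.den_nonneg hc.p_pos hc.n_pos A U α Φ
  by_contra hlt
  rw [not_le] at hlt
  obtain ⟨Q', hQ'g, hne, hmax⟩ := extremal M g (fun γ hγ => (hM γ hγ).1) _ hρ Q hlt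
  have hmem : ∀ γ ∈ M.filter (fun γ => Q' ⊆ γ), γ ∈ M ∧ Q' ⊆ γ := fun γ hγ => mem_filter.1 hγ
  obtain ⟨y, hy, hyγ⟩ := enum_tup (P := P) U' β Φ (rho c L U'.card c.B1) (by linarith)
    (M.filter (fun γ => Q' ⊆ γ)) hne Q' g (fun γ hγ => by
      obtain ⟨h1, h2⟩ := hmem γ hγ
      obtain ⟨h3, h4, h5⟩ := hM γ h1
      refine ⟨h3, h2, h4, h5, ?_⟩
      obtain ⟨x, hx⟩ := Hv_nonempty hc hG0 hd (hX γ h1)
      obtain ⟨_, h6, h7⟩ := mem_cell.1 ((hX γ h1).1 hx)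
      intro j hj v hv
      rw [← h6 j hj]
      exact h7 j (mem_univ _) v (mem_union_right _ hv)) (fun Q'' => by
      refine le_trans (mul_le_mul_of_nonneg_right ?_ (by positivity)) (hmax Q'')
      exact_mod_cast card_le_card (filter_subset_filter _ (filter_subset _ _)))
  obtain ⟨γ0, hγ0⟩ := hne
  obtain ⟨h1, h2⟩ := hmem γ0 hγ0
  obtain ⟨h3, h4, h5⟩ := hM γ0 h1
  refine heavy_fam h hc hA hG0 hT hU hUU' β hΦc Q' (h2.trans h4) (h5.mono_left h2) (by omega)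
    (by omega) (M.filter (fun γ => Q' ⊆ γ)) y hy X (fun γ hγ => ?_) D (fun γ hγ => ?_)
    (fun γ hγ => ?_)
  · rw [hyγ γ hγ]
    exact hX γ (hmem γ hγ).1
  · rw [hyγ γ hγ]
    exact hD1 γ (hmem γ hγ).1
  · rw [hyγ γ hγ]
    exact hD2 γ (hmem γ hγ).1

open Classical in
/-- The sets `γ` of `g` letters outside `Ψ` for which `Q' ∪ γ` has a heavy set at `U'`, `β`. -/
noncomputable def HSet (P : Pl ν L) (c : Num) (G0 d : ℝ) (u : ℕ) (Φ : Finset ν)
    (T : Finset ν → Finset (Fin L → ν)) (Q' Ψ : Finset ν) (U' : Finset (Fin L)) (β : Fin L → ν)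
    (g : ℕ) : Finset (Finset ν) :=
  univ.filter (fun γ => γ.card = g ∧ γ ⊆ P.Out ∧ Disjoint γ Ψ ∧
    ∃ X, P.Heavy c G0 d u Φ T (Q' ∪ γ) U' β X)

theorem Hv_rho_le {c : Num} {R : ℕ} (hc : c.OK R L) (u : ℕ) :
    ((c.cm : ℝ) + 1) * rho c L u c.B1 ≤ rho c L u c.Bp := by
  unfold rho
  have h1 : (0 : ℝ) < 1 / c.p := one_div_pos.2 hc.p_pos
  have h2 : (0 : ℝ) ≤ (1 / c.p) ^ (L - u) := (pow_pos h1 _).le
  calc ((c.cm : ℝ) + 1) * ((1 / c.p) ^ (L - u) * c.B1)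
      = (1 / c.p) ^ (L - u) * (((c.cm : ℝ) + 1) * c.B1) := by ring
    _ ≤ (1 / c.p) ^ (L - u) * c.Bp := mul_le_mul_of_nonneg_left hc.FBp h2

theorem heavy_card {P : Pl ν L} {c : Num} {R : ℕ} (h : P.OK c) (hc : c.OK R L)
    {A : Finset (Fin L → ν)} {U : Finset (Fin L)} {α : Fin L → ν} {Φ : Finset ν} {G0 : ℝ}
    (hA : P.Sp c A U α Φ c.Z1 G0) (hG0 : 1 ≤ G0) {T : Finset ν → Finset (Fin L → ν)}
    (hT : P.Tow c G0 A U α Φ T) {U' : Finset (Fin L)} (hU : U ⊆ U') (hUU' : U ≠ U')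
    (β : Fin L → ν) (hΦc : Φ.card + c.w ≤ 3 * L) (hgw : g ≤ c.w) (Q : Finset ν) :
    (((HSet P c G0 (P.den c A U α Φ) U.card Φ T ∅ Φ U' β g).filter
      (fun γ => Q ⊆ γ)).card : ℝ) * rho c L U'.card c.Bp ^ Q.card ≤
      rho c L U'.card c.Bp ^ g := by
  classical
  have hρ1 := Hv_rho_ge hc U'.card
  have hρle := Hv_rho_le hc U'.card
  have hcm0 : (0 : ℝ) ≤ c.cm := Nat.cast_nonneg _
  have hρ' : 1 ≤ rho c L U'.card c.Bp := by nlinarith
  have hρ'0 : 0 ≤ rho c L U'.card c.Bp := by linarith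
  have hd := P.den_nonneg hc.p_pos hc.n_pos A U α Φ
  set HS := HSet P c G0 (P.den c A U α Φ) U.card Φ T ∅ Φ U' β g with hHS
  have hmem : ∀ γ ∈ HS, γ.card = g ∧ γ ⊆ P.Out ∧ Disjoint γ Φ ∧
      ∃ X, P.Heavy c G0 (P.den c A U α Φ) U.card Φ T γ U' β X := by
    intro γ hγ
    rw [hHS] at hγ
    unfold HSet at hγ
    have := (mem_filter.1 hγ).2
    rw [empty_union] at this
    exact this
  rcases lt_trichotomy g Q.card with hlt | heq | hgt
  · have h0 : HS.filter (fun γ => Q ⊆ γ) = ∅ := by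
      rw [filter_eq_empty_iff]
      intro γ hγ hQ
      have h1 := card_le_card hQ
      have h2 := (hmem γ hγ).1
      omega
    rw [h0, card_empty, Nat.cast_zero, zero_mul]
    exact pow_nonneg hρ'0 _
  · have h0 : (HS.filter (fun γ => Q ⊆ γ)).card ≤ 1 := by
      rw [card_le_one]
      intro γ hγ γ' hγ'
      obtain ⟨h1, h2⟩ := mem_filter.1 hγ
      obtain ⟨h3, h4⟩ := mem_filter.1 hγ'
      have h5 : Q = γ := eq_of_subset_of_card_le h2 (by rw [(hmem γ h1).1]; omega)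
      have h6 : Q = γ' := eq_of_subset_of_card_le h4 (by rw [(hmem γ' h3).1]; omega)
      rw [← h5, ← h6]
    have h1 : ((HS.filter (fun γ => Q ⊆ γ)).card : ℝ) ≤ 1 := by exact_mod_cast h0
    rw [← heq]
    calc _ ≤ 1 * rho c L U'.card c.Bp ^ g :=
          mul_le_mul_of_nonneg_right h1 (pow_nonneg hρ'0 _)
      _ = _ := one_mul _
  · -- the main case
    have hch : ∀ γ : Finset ν, ∃ X, γ ∈ HS → P.Heavy c G0 (P.den c A U α Φ) U.card Φ T γ U' β X := by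
      intro γ
      by_cases hγ : γ ∈ HS
      · obtain ⟨X, hX⟩ := (hmem γ hγ).2.2.2
        exact ⟨X, fun _ => hX⟩
      · exact ⟨∅, fun h => absurd h hγ⟩
    choose X hX using hch
    set θ := c.thr G0 (P.den c A U α Φ) U.card g U'.card with hθ
    have hθd : P.den c A U α Φ ≤ θ := Hv_thr_ge hc hG0 hd _ _ _
    have hθ0 : 0 ≤ θ := hd.trans hθd
    have hcls : ∀ γ ∈ HS, ∃ i, i ≤ c.cm ∧ θ * c.h ^ i ≤ P.den c (X γ) U' β (Φ ∪ γ) ∧
        P.den c (X γ) U' β (Φ ∪ γ) ≤ c.h * (θ * c.h ^ i) := by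
      intro γ hγ
      obtain ⟨h1, h2, h3, _⟩ := hmem γ hγ
      have hXγ := hX γ hγ
      refine Hv_cls θ c.h _ hc.h_ge hθ0 ?_ c.cm ?_
      · have := hXγ.2.2.1
        rw [h1] at this
        exact this.le
      · have hsub : X γ ⊆ pts P.G P.V := by
          intro x hx
          have h4 := (mem_cell.1 (hXγ.1 hx)).1
          rw [hT.zero] at h4
          exact (mem_cell.1 (hA.sub h4)).1
        have hcard : (Φ ∪ γ).card ≤ 3 * L := by
          have := card_union_le Φ γ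
          omega
        have hTot : 0 ≤ c.Tot L := (Num.Tot_pos hc.p_pos hc.n_pos L).le
        calc P.den c (X γ) U' β (Φ ∪ γ) ≤ P.den c (pts P.G P.V) U' β (Φ ∪ γ) :=
              P.den_mono hc.p_pos hc.n_pos hsub _ _ _
          _ ≤ 8 ^ L * c.Tot L := den_all_le h hc U' β (Φ ∪ γ) (union_subset hA.out h2) hcard
          _ ≤ 8 ^ L * (c.Z1 * P.den c A U α Φ) := mul_le_mul_of_nonneg_left hA.dens (by positivity)
          _ = 8 ^ L * c.Z1 * P.den c A U α Φ := by ring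
          _ ≤ c.h ^ c.cm * P.den c A U α Φ := mul_le_mul_of_nonneg_right hc.Fcm hd
          _ ≤ c.h ^ c.cm * θ := mul_le_mul_of_nonneg_left hθd
              (pow_nonneg (by linarith [hc.h_ge]) _)
    let Mi : ℕ → Finset (Finset ν) := fun i => HS.filter (fun γ =>
      θ * c.h ^ i ≤ P.den c (X γ) U' β (Φ ∪ γ) ∧
        P.den c (X γ) U' β (Φ ∪ γ) ≤ c.h * (θ * c.h ^ i))
    have hMi : ∀ i, (((Mi i).filter (fun γ => Q ⊆ γ)).card : ℝ) ≤
        rho c L U'.card c.B1 ^ (g - Q.card) := by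
      intro i
      have h1 := heavy_class h hc hA hG0 hT hU hUU' β hΦc hgw (Mi i)
        (fun γ hγ => by
          obtain ⟨h1, h2, h3, _⟩ := hmem γ (mem_filter.1 hγ).1
          exact ⟨h1, h2, h3⟩) X (fun γ hγ => hX γ (mem_filter.1 hγ).1) (θ * c.h ^ i)
        (fun γ hγ => (mem_filter.1 hγ).2.1) (fun γ hγ => (mem_filter.1 hγ).2.2) Q
      have h2 : rho c L U'.card c.B1 ^ g =
          rho c L U'.card c.B1 ^ (g - Q.card) * rho c L U'.card c.B1 ^ Q.card := by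
        rw [← pow_add, Nat.sub_add_cancel hgt.le]
      rw [h2] at h1
      exact le_of_mul_le_mul_right h1 (pow_pos (by linarith) _)
    have hsub : HS.filter (fun γ => Q ⊆ γ) ⊆
        (range (c.cm + 1)).biUnion (fun i => (Mi i).filter (fun γ => Q ⊆ γ)) := by
      intro γ hγ
      obtain ⟨h1, h2⟩ := mem_filter.1 hγ
      obtain ⟨i, hi, h3⟩ := hcls γ h1
      rw [mem_biUnion]
      exact ⟨i, mem_range.2 (by omega), mem_filter.2 ⟨mem_filter.2 ⟨h1, h3⟩, h2⟩⟩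
    have hcard : ((HS.filter (fun γ => Q ⊆ γ)).card : ℝ) ≤
        ((c.cm : ℝ) + 1) * rho c L U'.card c.B1 ^ (g - Q.card) := by
      calc ((HS.filter (fun γ => Q ⊆ γ)).card : ℝ)
          ≤ ((∑ i ∈ range (c.cm + 1), ((Mi i).filter (fun γ => Q ⊆ γ)).card : ℕ) : ℝ) := by
            exact_mod_cast (card_le_card hsub).trans card_biUnion_le
        _ = ∑ i ∈ range (c.cm + 1), (((Mi i).filter (fun γ => Q ⊆ γ)).card : ℝ) := by
            push_cast
            rfl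
        _ ≤ ∑ i ∈ range (c.cm + 1), rho c L U'.card c.B1 ^ (g - Q.card) :=
            sum_le_sum fun i _ => hMi i
        _ = ((c.cm : ℝ) + 1) * rho c L U'.card c.B1 ^ (g - Q.card) := by
            rw [sum_const, card_range, nsmul_eq_mul]
            push_cast
            ring
    have hcm1 : (1 : ℝ) ≤ (c.cm : ℝ) + 1 := by linarith
    calc ((HS.filter (fun γ => Q ⊆ γ)).card : ℝ) * rho c L U'.card c.Bp ^ Q.card
        ≤ (((c.cm : ℝ) + 1) * rho c L U'.card c.B1 ^ (g - Q.card)) *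
            rho c L U'.card c.Bp ^ Q.card :=
          mul_le_mul_of_nonneg_right hcard (pow_nonneg hρ'0 _)
      _ ≤ (((c.cm : ℝ) + 1) ^ (g - Q.card) * rho c L U'.card c.B1 ^ (g - Q.card)) *
            rho c L U'.card c.Bp ^ Q.card := by
          refine mul_le_mul_of_nonneg_right (mul_le_mul_of_nonneg_right ?_
            (pow_nonneg (by linarith) _)) (pow_nonneg hρ'0 _)
          exact le_self_pow₀ hcm1 (by omega)
      _ = (((c.cm : ℝ) + 1) * rho c L U'.card c.B1) ^ (g - Q.card) *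
            rho c L U'.card c.Bp ^ Q.card := by rw [mul_pow]
      _ ≤ rho c L U'.card c.Bp ^ (g - Q.card) * rho c L U'.card c.Bp ^ Q.card := by
          refine mul_le_mul_of_nonneg_right (pow_le_pow_left₀ ?_ hρle _) (pow_nonneg hρ'0 _)
          exact mul_nonneg (by linarith) (by linarith)
      _ = rho c L U'.card c.Bp ^ g := by rw [← pow_add, Nat.sub_add_cancel hgt.le]

end Pool.Agent.H49.RL
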