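/-
The random graph satisfies Pl.OK, with convenient numeric hypotheses (helper11).
-/
import Pool.Agent.H11.RL.Rx

set_option autoImplicit false
set_option linter.unusedSectionVars false

open Finset

namespace Pool.Agent.H49.RL

open Pool.Agent.H49.RG (Cl Ad Eqn nbr cell pts mem_cell mem_nbr mem_pts cell_sub cell_mono
  cell_anti cell_cell cell_eq Vb)

variable {R L N : ℕ}

theorem Rx2_log (n L N : ℕ) (hL : 16 ≤ L) (hLn : 2 ^ (L ^ 3) ≤ n) (hN : N ≤ n ^ 2) (hN1 : 1 ≤ N) :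
    ∃ y : ℝ, 2 ^ 200 ≤ y ∧ (n : ℝ) = y ^ 16 ∧ Real.log n ≤ 16 * y ∧ (L : ℝ) ≤ 32 * y ∧
      Real.log (N + 1) ≤ 48 * y := by
  have hn0 : 0 < n := lt_of_lt_of_le (by positivity) hLn
  have hnr : (0 : ℝ) < n := by exact_mod_cast hn0
  have hn1 : (1 : ℝ) ≤ n := by exact_mod_cast hn0
  have hy0 : (0 : ℝ) < (n : ℝ) ^ ((1 : ℝ) / 16) := Real.rpow_pos_of_pos hnr _
  have hy16 : ((n : ℝ) ^ ((1 : ℝ) / 16)) ^ 16 = n := by
    rw [← Real.rpow_natCast, ← Real.rpow_mul hnr.le]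
    norm_num
  have hbig : (2 : ℝ) ^ 4096 ≤ n := by
    have h1 : 2 ^ 4096 ≤ 2 ^ (L ^ 3) := by
      refine Nat.pow_le_pow_right (by norm_num) ?_
      calc 4096 = 16 ^ 3 := by norm_num
        _ ≤ L ^ 3 := Nat.pow_le_pow_left hL 3
    have h2 : (2 ^ 4096 : ℕ) ≤ n := h1.trans hLn
    exact_mod_cast h2
  have hy2 : (2 : ℝ) ^ 256 ≤ (n : ℝ) ^ ((1 : ℝ) / 16) := by
    have h1 : ((2 : ℝ) ^ 256) ^ 16 ≤ ((n : ℝ) ^ ((1 : ℝ) / 16)) ^ 16 := by
      rw [hy16, ← pow_mul]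
      exact hbig
    exact le_of_pow_le_pow_left₀ (by norm_num) hy0.le h1
  have hlog : Real.log n = 16 * Real.log ((n : ℝ) ^ ((1 : ℝ) / 16)) := by
    rw [Real.log_rpow hnr]
    ring
  have hlog2 : Real.log ((n : ℝ) ^ ((1 : ℝ) / 16)) ≤ (n : ℝ) ^ ((1 : ℝ) / 16) :=
    (Real.log_le_sub_one_of_pos hy0).trans (by linarith)
  have hlogn : Real.log n ≤ 16 * (n : ℝ) ^ ((1 : ℝ) / 16) := by
    rw [hlog]
    linarith
  refine ⟨(n : ℝ) ^ ((1 : ℝ) / 16), ?_, hy16.symm, hlogn, ?_, ?_⟩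
  · exact le_trans (pow_le_pow_right₀ (by norm_num) (by norm_num)) hy2
  · have h1 : ((2 : ℝ)) ^ (L ^ 3) ≤ n := by exact_mod_cast hLn
    have h2 : (L ^ 3 : ℕ) * Real.log 2 ≤ Real.log n := by
      rw [← Real.log_pow]
      exact Real.log_le_log (by positivity) h1
    have h3 : (L : ℝ) ≤ (L ^ 3 : ℕ) := by
      have : L ≤ L ^ 3 := Nat.le_self_pow (by norm_num) L
      exact_mod_cast this
    have h4 : (1 / 2 : ℝ) ≤ Real.log 2 := by
      have := Real.log_two_gt_d9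
      linarith
    have h5 : (0 : ℝ) ≤ (L ^ 3 : ℕ) := Nat.cast_nonneg _
    nlinarith
  · have h1 : ((N : ℝ) + 1) ≤ 2 * (n : ℝ) ^ 2 := by
      have h2 : (N : ℝ) ≤ (n : ℝ) ^ 2 := by exact_mod_cast hN
      have h3 : (1 : ℝ) ≤ (n : ℝ) ^ 2 := one_le_pow₀ hn1
      linarith
    have h2 : Real.log ((N : ℝ) + 1) ≤ Real.log (2 * (n : ℝ) ^ 2) :=
      Real.log_le_log (by positivity) h1
    rw [Real.log_mul (by norm_num) (by positivity), Real.log_pow] at h2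
    have h3 : Real.log 2 ≤ 1 := by
      have := Real.log_two_lt_d9
      linarith
    have h4 : (1 : ℝ) ≤ (n : ℝ) ^ ((1 : ℝ) / 16) := le_trans (by norm_num) hy2
    push_cast at h2
    linarith

theorem rnd_ok2 (c : Num) (hc : c.OK R L) (p : unitInterval) (hp : c.p = (p : ℝ))
    (hN : c.n * (R * L) ≤ N) (hNo : c.No = N) (hs : c.s = 8 * L)
    (hp100 : 1 ≤ (c.n : ℝ) * c.p ^ (100 * L)) (hCb : (c.n : ℝ) ^ 5 ≤ c.Cb ^ 8)
    (hte : Real.sqrt c.n ≤ c.te) (hNn : N ≤ c.n ^ 2) (hL : 2 ^ (L ^ 3) ≤ c.n) :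
    (SimpleGraph.binomialRandom (Fin N) p).real
      {G | ¬ ∀ a : Fin R, (pl G (fun (a : Fin R) (j : Fin L) => Vb R c.n N a j) a).OK c} ≤ 1 / N := by
  have hN1 : 1 ≤ N := by
    have h1 := Nat.mul_pos hc.n_pos (Nat.mul_pos hc.R_pos hc.L_pos)
    omega
  have hL16 : 16 ≤ L := by
    have h1 := hc.K_le
    have h2 := hc.wK
    have h3 := hc.KX_pos
    have h4 : 1 ≤ c.w := by
      rw [hc.w_eq]
      exact Nat.mul_pos hc.R_pos hc.f_pos
    omega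
  obtain ⟨y, hy, hny, hlog, hLy, hlogN⟩ := Rx2_log c.n L N hL16 hL hNn hN1
  have hp0 := hc.p_pos
  have hp1 := hc.p_le
  have hy1 : (1 : ℝ) ≤ y := le_trans (by norm_num) hy
  have hy0 : (0 : ℝ) < y := by linarith
  have hnr : (0 : ℝ) < c.n := by exact_mod_cast hc.n_pos
  have hLr : (16 : ℝ) ≤ L := by exact_mod_cast hL16
  have hlogN0 : 0 ≤ Real.log ((N : ℝ) + 1) := Real.log_nonneg (by
    have : (0 : ℝ) ≤ N := Nat.cast_nonneg _
    linarith)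
  have hlogNN : Real.log (N : ℝ) ≤ Real.log ((N : ℝ) + 1) := by
    have : (1 : ℝ) ≤ N := by exact_mod_cast hN1
    exact Real.log_le_log (by linarith) (by linarith)
  have hprod : ((L : ℝ) + 2) * Real.log ((N : ℝ) + 1) ≤ 2 ^ 12 * y ^ 2 := by
    have h1 : (L : ℝ) + 2 ≤ 64 * y := by nlinarith
    calc ((L : ℝ) + 2) * Real.log ((N : ℝ) + 1) ≤ (64 * y) * (48 * y) :=
          mul_le_mul h1 hlogN hlogN0 (by positivity)
      _ ≤ 2 ^ 12 * y ^ 2 := by nlinarith [sq_nonneg y]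
  have hprod1 : ((L : ℝ) + 1) * Real.log ((N : ℝ) + 1) ≤ 2 ^ 12 * y ^ 2 := by
    refine le_trans (mul_le_mul_of_nonneg_right (by linarith) hlogN0) hprod
  have hsq : Real.sqrt c.n = y ^ 8 := by
    rw [hny, show (y : ℝ) ^ 16 = (y ^ 8) ^ 2 by ring]
    exact Real.sqrt_sq (by positivity)
  have hy5 : (2 : ℝ) ^ 100 * y ^ 2 ≤ y ^ 3 := by
    have h1 : (2 : ℝ) ^ 100 ≤ y := le_trans (by norm_num) hy
    calc (2 : ℝ) ^ 100 * y ^ 2 ≤ y * y ^ 2 := mul_le_mul_of_nonneg_right h1 (by positivity)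
      _ = y ^ 3 := by ring
  refine rnd_ok c hc p hp hN hNo hs ?_ ?_ ?_ ?_ ?_
  · refine hp100.trans (mul_le_mul_of_nonneg_left ?_ hnr.le)
    exact pow_le_pow_of_le_one hp0.le hp1 (by omega)
  · rw [hsq]
    have h1 : y ^ 3 ≤ y ^ 8 := pow_le_pow_right₀ hy1 (by norm_num)
    calc 64 * ((L : ℝ) + 1) * Real.log ((N : ℝ) + 1) =
        64 * (((L : ℝ) + 1) * Real.log ((N : ℝ) + 1)) := by ring
      _ ≤ 64 * (2 ^ 12 * y ^ 2) := mul_le_mul_of_nonneg_left hprod1 (by norm_num)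
      _ ≤ 2 ^ 100 * y ^ 2 := by nlinarith [sq_nonneg y]
      _ ≤ y ^ 8 := hy5.trans h1
  · have hpy : y ^ 7 ≤ c.p * c.te := by
      have h1 : y ^ 7 ≤ c.p * y ^ 8 := by
        have h2 : (y ^ 7) ^ 16 ≤ (c.p * y ^ 8) ^ 16 := by
          have h3 : 1 ≤ (c.n : ℝ) * c.p ^ 16 := by
            refine hp100.trans (mul_le_mul_of_nonneg_left ?_ hnr.le)
            exact pow_le_pow_of_le_one hp0.le hp1 (by omega)
          rw [hny] at h3
          calc (y ^ 7) ^ 16 = y ^ 112 * 1 := by ring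
            _ ≤ y ^ 112 * (y ^ 16 * c.p ^ 16) := mul_le_mul_of_nonneg_left h3 (by positivity)
            _ = (c.p * y ^ 8) ^ 16 := by ring
        exact le_of_pow_le_pow_left₀ (by norm_num) (by positivity) h2
      refine h1.trans (mul_le_mul_of_nonneg_left ?_ hp0.le)
      rw [← hsq]
      exact hte
    refine le_trans ?_ hpy
    have h1 : y ^ 3 ≤ y ^ 7 := pow_le_pow_right₀ hy1 (by norm_num)
    have h2 : ((L : ℝ) + 2) * Real.log N ≤ 2 ^ 12 * y ^ 2 :=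
      le_trans (mul_le_mul_of_nonneg_left hlogNN (by linarith)) hprod
    have h3 : (L : ℝ) ≤ 32 * y ^ 2 := by nlinarith
    calc 32 * (((L : ℝ) + 2) * Real.log N + L) ≤ 32 * (2 ^ 12 * y ^ 2 + 32 * y ^ 2) := by linarith
      _ ≤ 2 ^ 100 * y ^ 2 := by nlinarith [sq_nonneg y]
      _ ≤ y ^ 7 := hy5.trans h1
  · rcases lt_trichotomy c.Cb 0 with h1 | h1 | h1
    · have := hc.Cb_nn
      linarith
    · rw [h1] at hCb
      have : (0 : ℝ) < (c.n : ℝ) ^ 5 := by positivity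
      norm_num at hCb
      linarith
    · exact h1
  · have h1 : y ^ 20 ≤ c.Cb ^ 2 := by
      have h2 : (y ^ 20) ^ 4 ≤ (c.Cb ^ 2) ^ 4 := by
        calc (y ^ 20) ^ 4 = (y ^ 16) ^ 5 := by ring
          _ = (c.n : ℝ) ^ 5 := by rw [hny]
          _ ≤ c.Cb ^ 8 := hCb
          _ = (c.Cb ^ 2) ^ 4 := by ring
      exact le_of_pow_le_pow_left₀ (by norm_num) (by positivity) h2
    rw [le_div_iff₀ (by positivity)]
    refine le_trans ?_ h1
    have h3 : y ^ 19 ≤ y ^ 20 := pow_le_pow_right₀ hy1 (by norm_num)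
    calc 80 * ((L : ℝ) + 1) * Real.log ((N : ℝ) + 1) * (2 * c.n) =
        160 * (((L : ℝ) + 1) * Real.log ((N : ℝ) + 1)) * y ^ 16 := by rw [hny]; ring
      _ ≤ 160 * (2 ^ 12 * y ^ 2) * y ^ 16 := by gcongr
      _ ≤ (2 ^ 100 * y ^ 2) * y ^ 16 := by
          refine mul_le_mul_of_nonneg_right ?_ (by positivity)
          nlinarith [sq_nonneg y]
      _ ≤ y ^ 3 * y ^ 16 := mul_le_mul_of_nonneg_right hy5 (by positivity)
      _ = y ^ 19 := by ring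
      _ ≤ y ^ 20 := h3

end Pool.Agent.H49.RL
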