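/-
ROW RL_Tsa (about 180 lines). Fine points and members of the family containing a given set (section 8). `M = 1/p`, `u = #U`.
fine_sub. `x` fine, `γ` a set of `k` letters. Every `o` with `γ ⊆ univ.image (y o)` has an injection `τ : γ → Fin g` (a position for every letter), i.e. there are `A ⊆ Fin g`, `#A = k`, and `q` with `y o = q` on `A`, `A.image q = γ`; number of possibilities: at most `g^k ≤ w^k` (functions `γ → Fin g`; `y o (τ v) = v`: for a given `τ` put `A = image τ`, `q (τ v) = v`, only injective `τ` occur). For given `τ`: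
 `#{o | x adj y o on Uᶜ, y o = q on A} ≤ #{o | y o = q on A, x i adj y o j for i ∉ U, j ∉ A} = #O p^((g-k)(L-u)) Vf P c O y Uᶜ A q x ≤ #O p^((g-k)(L-u)) 2 (l/rho)^k` (fine_up), and `M^(g (L-u)) p^((g-k)(L-u)) (l/rho)^k = (M^(L-u) l / (M^(L-u) B))^k = (l/B)^k` (`k ≤ g`; if `k > g` no `o` qualifies; `#Uᶜ = L - u`).
tsh_a. `∑_o #{x ∈ Y | ..} = ∑_{x ∈ Y} #{o | ..} ≤ ∑_{x ∈ Y} ∑_{γ ∈ M x, Ad univ x γ} #{o | x adj y o, γ ⊆ image (y o)} ≤ ∑_{x ∈ Y} K p^(g (L-u)) 2 (w l/B)^k #O` (fine_sub), and `W (u, φ + g) p^(g (L-u)) = W (u, φ)` (W_add).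
-/
import Pool.Agent.H11.RL.Dc

set_option autoImplicit false
set_option linter.unusedSectionVars false

open Finset

namespace Pool.Agent.H49.RL

open Pool.Agent.H49.RG (Cl Ad Eqn nbr cell pts mem_cell mem_nbr mem_pts cell_sub cell_mono
  cell_anti cell_cell cell_eq)
open Pool.Agent.H82.RL (HH ZZ Vio MVio NoVio Fam natT)

variable {ν ω : Type} [Fintype ν] [DecidableEq ν] [DecidableEq ω] {L g : ℕ}

lemma Tsa_B_pos {c : Num} {R : ℕ} (hc : c.OK R L) {B l : ℝ} (ht : c.TOK L B l) : 0 < B := by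
  have h1 : 1 ≤ c.K1 := by
    have h2 := hc.D_ge
    have h3 := hc.DK
    have h4 := hc.μ_pos
    have h5 := hc.t0_pos
    have h6 : 1 ≤ c.D := by omega
    have h7 : 1 ≤ c.D * c.μ * c.t0 := Nat.mul_pos (Nat.mul_pos h6 h4) h5
    omega
  have h2 : 1 ≤ c.w := by
    rw [hc.w_eq]
    exact Nat.mul_pos hc.R_pos hc.f_pos
  have h3 : (1 : ℝ) ≤ c.K1 := by exact_mod_cast h1
  have h4 : (1 : ℝ) ≤ c.w := by exact_mod_cast h2
  have h5 := ht.l_ge
  have h6 := ht.mB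
  have h7 : 0 < 2 * (c.K1 : ℝ) * c.w * l := by positivity
  linarith

lemma Tsa_pow (a B l : ℝ) (m n k : ℕ) (ha : 0 < a) (hB : 0 < B) (hkg : k ≤ m)
    (V N : ℝ) (hV : a ^ ((m - k) * n) * V ≤ N * (2 * (l / (a ^ n * B)) ^ k)) :
    a ^ (m * n) * V ≤ 2 * (l / B) ^ k * N := by
  have h1 : m * n = k * n + (m - k) * n := by
    rw [← Nat.add_mul]
    congr 1
    omega
  rw [h1, pow_add, mul_assoc]
  have h2 : a ^ (k * n) * (a ^ ((m - k) * n) * V) ≤
      a ^ (k * n) * (N * (2 * (l / (a ^ n * B)) ^ k)) :=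
    mul_le_mul_of_nonneg_left hV (by positivity)
  refine h2.trans (le_of_eq ?_)
  rw [div_pow, div_pow, mul_pow, ← pow_mul, mul_comm n k]
  field_simp

open Classical in
theorem Tsa_one {P : Pl ν L} {c : Num} {R : ℕ} (hc : c.OK R L)
    {B l : ℝ} (ht : c.TOK L B l) (U : Finset (Fin L)) (α : Fin L → ν) (Φ : Finset ν)
    (hg : g ≤ c.w) (O : Finset ω) (y : ω → Fin g → ν)
    (hy : Fam P U α Φ O y (rho c L U.card B)) (x : Fin L → ν) (hx : Fn P c B l U O y x)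
    (γ : Finset ν) (τ : {v // v ∈ γ} → Fin g) :
    (1 / c.p) ^ (g * (L - U.card)) * ((O.filter (fun o =>
      (∀ i ∉ U, ∀ j, P.G.Adj (x i) (y o j)) ∧ ∀ v : {v // v ∈ γ}, y o (τ v) = v)).card : ℝ) ≤
      2 * (l / B) ^ γ.card * O.card := by
  have hB := Tsa_B_pos hc ht
  have hl : 0 < l := lt_of_lt_of_le one_pos ht.l_ge
  have hp := hc.p_pos
  by_cases hτ : Function.Injective τ
  · have hA : (univ.image τ).card = γ.card := by
      rw [card_image_of_injective _ hτ]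
      simp
    obtain ⟨q, hq⟩ : ∃ q : Fin g → ν, ∀ v : {v // v ∈ γ}, q (τ v) = v := by
      by_cases hne : Nonempty {v // v ∈ γ}
      · refine ⟨fun j => ((Function.invFun τ j : {v // v ∈ γ}) : ν), fun v => ?_⟩
        simp only [Function.leftInverse_invFun hτ v]
      · obtain ⟨o, ho⟩ := hy.ne
        exact ⟨y o, fun v => absurd ⟨v⟩ hne⟩
    have hk : γ.card ≤ g := by
      rw [← hA]
      simpa using card_le_univ (univ.image τ)
    have h1 := fine_up hc ht U α Φ hg O y hy x hx (univ.image τ) q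
    have hO : (0 : ℝ) < O.card := by exact_mod_cast hy.ne.card_pos
    unfold Vf at h1
    rw [hA] at h1
    rw [div_le_iff₀ hO] at h1
    have hU : Uᶜ.card = L - U.card := by
      rw [card_compl, Fintype.card_fin]
    rw [hU] at h1
    have h2 : ((O.filter (fun o =>
      (∀ i ∉ U, ∀ j, P.G.Adj (x i) (y o j)) ∧ ∀ v : {v // v ∈ γ}, y o (τ v) = v)).card : ℝ) ≤
      ((O.filter (fun o => (∀ j ∈ univ.image τ, y o j = q j) ∧
        ∀ i ∈ Uᶜ, ∀ j ∉ univ.image τ, P.G.Adj (x i) (y o j))).card : ℝ) := by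
      refine Nat.cast_le.2 (card_le_card fun o ho => ?_)
      rw [mem_filter] at ho ⊢
      refine ⟨ho.1, fun j hj => ?_, fun i hi j _ => ho.2.1 i (by simpa using hi) j⟩
      obtain ⟨v, _, rfl⟩ := mem_image.1 hj
      rw [ho.2.2 v, hq v]
    have h3 := Tsa_pow (1 / c.p) B l g (L - U.card) γ.card (by positivity) hB hk
      _ O.card (h1.trans (le_of_eq (by unfold rho; ring)))
    refine le_trans (mul_le_mul_of_nonneg_left h2 (by positivity)) h3
  · have : (O.filter (fun o =>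
      (∀ i ∉ U, ∀ j, P.G.Adj (x i) (y o j)) ∧ ∀ v : {v // v ∈ γ}, y o (τ v) = v)) = ∅ := by
      rw [filter_eq_empty_iff]
      rintro o _ ⟨_, h⟩
      refine hτ fun v v' hv => Subtype.ext ?_
      rw [← h v, ← h v', hv]
    rw [this]
    simp only [card_empty, Nat.cast_zero, mul_zero]
    positivity

open Classical in
theorem fine_sub {P : Pl ν L} {c : Num} {R : ℕ} (hc : c.OK R L)
    {B l : ℝ} (ht : c.TOK L B l) (U : Finset (Fin L)) (α : Fin L → ν) (Φ : Finset ν)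
    (hg : g ≤ c.w) (O : Finset ω) (y : ω → Fin g → ν)
    (hy : Fam P U α Φ O y (rho c L U.card B)) (x : Fin L → ν) (hx : Fn P c B l U O y x)
    (γ : Finset ν) :
    (1 / c.p) ^ (g * (L - U.card)) * ((O.filter (fun o =>
      (∀ i ∉ U, ∀ j, P.G.Adj (x i) (y o j)) ∧ γ ⊆ univ.image (y o))).card : ℝ) ≤
      2 * (c.w * l / B) ^ γ.card * O.card := by
  have hB := Tsa_B_pos hc ht
  have hl : 0 < l := lt_of_lt_of_le one_pos ht.l_ge
  have hp := hc.p_pos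
  have h1 : (O.filter (fun o =>
      (∀ i ∉ U, ∀ j, P.G.Adj (x i) (y o j)) ∧ γ ⊆ univ.image (y o))) ⊆
      (univ : Finset ({v // v ∈ γ} → Fin g)).biUnion (fun τ => O.filter (fun o =>
      (∀ i ∉ U, ∀ j, P.G.Adj (x i) (y o j)) ∧ ∀ v : {v // v ∈ γ}, y o (τ v) = v)) := by
    intro o ho
    rw [mem_filter] at ho
    have h2 : ∀ v : {v // v ∈ γ}, ∃ j, y o j = v := by
      intro v
      obtain ⟨j, _, hj⟩ := mem_image.1 (ho.2.2 v.2)
      exact ⟨j, hj⟩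
    choose τ hτ using h2
    rw [mem_biUnion]
    exact ⟨τ, mem_univ _, mem_filter.2 ⟨ho.1, ho.2.1, hτ⟩⟩
  have h2 : ((O.filter (fun o =>
      (∀ i ∉ U, ∀ j, P.G.Adj (x i) (y o j)) ∧ γ ⊆ univ.image (y o))).card : ℝ) ≤
      ∑ τ : {v // v ∈ γ} → Fin g, ((O.filter (fun o =>
      (∀ i ∉ U, ∀ j, P.G.Adj (x i) (y o j)) ∧ ∀ v : {v // v ∈ γ}, y o (τ v) = v)).card : ℝ) := by
    have h3 := (card_le_card h1).trans card_biUnion_le
    exact_mod_cast h3
  have h3 : (Fintype.card ({v // v ∈ γ} → Fin g) : ℝ) ≤ (c.w : ℝ) ^ γ.card := by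
    rw [Fintype.card_fun, Fintype.card_fin, Fintype.card_coe]
    push_cast
    exact pow_le_pow_left₀ (Nat.cast_nonneg _) (by exact_mod_cast hg) _
  calc (1 / c.p) ^ (g * (L - U.card)) * ((O.filter (fun o =>
      (∀ i ∉ U, ∀ j, P.G.Adj (x i) (y o j)) ∧ γ ⊆ univ.image (y o))).card : ℝ)
      ≤ (1 / c.p) ^ (g * (L - U.card)) * ∑ τ : {v // v ∈ γ} → Fin g, ((O.filter (fun o =>
      (∀ i ∉ U, ∀ j, P.G.Adj (x i) (y o j)) ∧ ∀ v : {v // v ∈ γ}, y o (τ v) = v)).card : ℝ) :=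
        mul_le_mul_of_nonneg_left h2 (by positivity)
    _ = ∑ τ : {v // v ∈ γ} → Fin g, (1 / c.p) ^ (g * (L - U.card)) * ((O.filter (fun o =>
      (∀ i ∉ U, ∀ j, P.G.Adj (x i) (y o j)) ∧ ∀ v : {v // v ∈ γ}, y o (τ v) = v)).card : ℝ) :=
        mul_sum _ _ _
    _ ≤ ∑ _τ : {v // v ∈ γ} → Fin g, 2 * (l / B) ^ γ.card * O.card :=
        sum_le_sum fun τ _ => Tsa_one hc ht U α Φ hg O y hy x hx γ τ
    _ = (Fintype.card ({v // v ∈ γ} → Fin g) : ℝ) * (2 * (l / B) ^ γ.card * O.card) := by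
        rw [sum_const, card_univ, nsmul_eq_mul]
    _ ≤ (c.w : ℝ) ^ γ.card * (2 * (l / B) ^ γ.card * O.card) :=
        mul_le_mul_of_nonneg_right h3 (by positivity)
    _ = 2 * (c.w * l / B) ^ γ.card * O.card := by
        rw [mul_div_assoc, mul_pow]
        ring

open Classical in
theorem tsh_a {P : Pl ν L} {c : Num} {R : ℕ} (hc : c.OK R L)
    {B l : ℝ} (ht : c.TOK L B l) (U : Finset (Fin L)) (α : Fin L → ν) (Φ : Finset ν)
    (hg : g ≤ c.w) (O : Finset ω) (y : ω → Fin g → ν)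
    (hy : Fam P U α Φ O y (rho c L U.card B)) (Y : Finset (Fin L → ν))
    (hY : ∀ x ∈ Y, Fn P c B l U O y x) (M : (Fin L → ν) → Finset (Finset ν)) (k : ℕ)
    (hM : ∀ x ∈ Y, ∀ γ ∈ M x, γ.card = k) (K : ℝ)
    (hK : ∀ x ∈ Y, (((M x).filter (fun γ => Ad P.G univ x γ)).card : ℝ) ≤ K) (φ : ℕ) :
    ∑ o ∈ O, ((Y.filter (fun x => (∀ i ∉ U, ∀ j, P.G.Adj (x i) (y o j)) ∧
      ∃ γ ∈ M x, Ad P.G univ x γ ∧ γ ⊆ univ.image (y o))).card : ℝ) * c.W L U.card (φ + g) ≤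
      O.card * (Y.card * c.W L U.card φ) * (K * (2 * (c.w * l / B) ^ k)) := by
  have hB := Tsa_B_pos hc ht
  have hl : 0 < l := lt_of_lt_of_le one_pos ht.l_ge
  have hp := hc.p_pos
  have hW := Num.W_pos hp hc.n_pos L U.card φ
  rw [W_add hp]
  -- the sum over the points
  have h1 : ∑ o ∈ O, ((Y.filter (fun x => (∀ i ∉ U, ∀ j, P.G.Adj (x i) (y o j)) ∧
      ∃ γ ∈ M x, Ad P.G univ x γ ∧ γ ⊆ univ.image (y o))).card : ℝ) =
      ∑ x ∈ Y, ((O.filter (fun o => (∀ i ∉ U, ∀ j, P.G.Adj (x i) (y o j)) ∧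
      ∃ γ ∈ M x, Ad P.G univ x γ ∧ γ ⊆ univ.image (y o))).card : ℝ) := by
    simp only [card_filter, Nat.cast_sum]
    exact sum_comm
  have h2 : ∀ x ∈ Y, (1 / c.p) ^ (g * (L - U.card)) *
      ((O.filter (fun o => (∀ i ∉ U, ∀ j, P.G.Adj (x i) (y o j)) ∧
      ∃ γ ∈ M x, Ad P.G univ x γ ∧ γ ⊆ univ.image (y o))).card : ℝ) ≤
      K * (2 * (c.w * l / B) ^ k * O.card) := by
    intro x hx
    have h3 : (O.filter (fun o => (∀ i ∉ U, ∀ j, P.G.Adj (x i) (y o j)) ∧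
      ∃ γ ∈ M x, Ad P.G univ x γ ∧ γ ⊆ univ.image (y o))) ⊆
      ((M x).filter (fun γ => Ad P.G univ x γ)).biUnion (fun γ => O.filter (fun o =>
      (∀ i ∉ U, ∀ j, P.G.Adj (x i) (y o j)) ∧ γ ⊆ univ.image (y o))) := by
      intro o ho
      rw [mem_filter] at ho
      obtain ⟨ho1, ho2, γ, hγ1, hγ2, hγ3⟩ := ho
      exact mem_biUnion.2 ⟨γ, mem_filter.2 ⟨hγ1, hγ2⟩, mem_filter.2 ⟨ho1, ho2, hγ3⟩⟩
    have h4 : ((O.filter (fun o => (∀ i ∉ U, ∀ j, P.G.Adj (x i) (y o j)) ∧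
      ∃ γ ∈ M x, Ad P.G univ x γ ∧ γ ⊆ univ.image (y o))).card : ℝ) ≤
      ∑ γ ∈ (M x).filter (fun γ => Ad P.G univ x γ), ((O.filter (fun o =>
      (∀ i ∉ U, ∀ j, P.G.Adj (x i) (y o j)) ∧ γ ⊆ univ.image (y o))).card : ℝ) := by
      have h5 := (card_le_card h3).trans card_biUnion_le
      exact_mod_cast h5
    refine (mul_le_mul_of_nonneg_left h4 (by positivity)).trans ?_
    rw [mul_sum]
    calc ∑ γ ∈ (M x).filter (fun γ => Ad P.G univ x γ), (1 / c.p) ^ (g * (L - U.card)) *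
          ((O.filter (fun o =>
          (∀ i ∉ U, ∀ j, P.G.Adj (x i) (y o j)) ∧ γ ⊆ univ.image (y o))).card : ℝ)
        ≤ ∑ _γ ∈ (M x).filter (fun γ => Ad P.G univ x γ),
          2 * (c.w * l / B) ^ k * O.card := by
          refine sum_le_sum fun γ hγ => ?_
          have h6 := fine_sub hc ht U α Φ hg O y hy x (hY x hx) γ
          rwa [hM x hx γ (mem_filter.1 hγ).1] at h6
      _ = (((M x).filter (fun γ => Ad P.G univ x γ)).card : ℝ) *
          (2 * (c.w * l / B) ^ k * O.card) := by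
          rw [sum_const, nsmul_eq_mul]
      _ ≤ K * (2 * (c.w * l / B) ^ k * O.card) :=
          mul_le_mul_of_nonneg_right (hK x hx) (by positivity)
  rw [← sum_mul, h1]
  calc (∑ x ∈ Y, ((O.filter (fun o => (∀ i ∉ U, ∀ j, P.G.Adj (x i) (y o j)) ∧
      ∃ γ ∈ M x, Ad P.G univ x γ ∧ γ ⊆ univ.image (y o))).card : ℝ)) *
      (c.W L U.card φ * (1 / c.p) ^ (g * (L - U.card)))
      = c.W L U.card φ * ∑ x ∈ Y, (1 / c.p) ^ (g * (L - U.card)) *
      ((O.filter (fun o => (∀ i ∉ U, ∀ j, P.G.Adj (x i) (y o j)) ∧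
      ∃ γ ∈ M x, Ad P.G univ x γ ∧ γ ⊆ univ.image (y o))).card : ℝ) := by
        rw [← mul_sum]
        ring
    _ ≤ c.W L U.card φ * ∑ _x ∈ Y, K * (2 * (c.w * l / B) ^ k * O.card) :=
        mul_le_mul_of_nonneg_left (sum_le_sum h2) hW.le
    _ = O.card * (Y.card * c.W L U.card φ) * (K * (2 * (c.w * l / B) ^ k)) := by
        rw [sum_const, nsmul_eq_mul]
        ring

end Pool.Agent.H49.RL
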